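import Pool.Agent.Y712.AJ.Main

/-!
# The kernels of the `p`-adic Abel–Jacobi maps and the powers of the canonical classes

Let `C` be the Chow theory (with rational coefficients) of a class of smooth projective varieties over a
field `k` (for example all of them, over a number field), `H p` the `p`-adic étale cohomology and `T p`
the `p`-adic Abel–Jacobi maps, for `p` in a set of primes, `D` the theory of vector bundles, `can X` the
canonical class of `X` and `R` the class of the rational varieties.

1. For every `p` the following are equivalent.
   * The Abel–Jacobi maps `CH^i(X)^0 → H^1(k, H^{2i-1}(X)(i))` are injective for all `X` and `i`.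
   * For all **rational** `X` and all `n ≥ 1`: if the power `K_X ^ n` of the **canonical class** is
     homologically trivial and its image under the Abel–Jacobi map is zero, then `K_X ^ n = 0`.
   * The same for `v ^ n`, `v` a divisor on a rational variety of dimension `2 n`.
   * The same for the Chern classes of the vector bundles on the rational varieties.
2. For every `p` and every **single** `X` the Abel–Jacobi maps of `X` are injective in all codimensions if
   and only if this is true for the power `r + 1` of the canonical classes of the projective bundles
   `P(E)`, `E` a vector bundle on `X` of rank `r` with `c_1(E) = - K_X`, if and only if it is true for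
   the Chern classes of the vector bundles on `X`, if and only if it is true for all `P(E)`.
3. The kernels of the Abel–Jacobi maps `T p` are contained in those of `T q` if and only if this is true
   for the powers of the canonical classes of the rational varieties. In particular, the kernel of the
   `p`-adic Abel–Jacobi map is independent of `p`, for all varieties, if the vanishing of the image of
   `K_X ^ n` is independent of `p` for all rational `X`.

The injectivity for the motives `(X, e, n)` is the injectivity for all `X` in codimension `n`.

Proof: the kernels of the Abel–Jacobi maps form an adequate equivalence relation, and two adequate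
equivalence relations are compared with the help of vector bundles `E` with
`ch(E) = (r + 1) - e ^ K_X + n x` (library `Y101.Aq`).
-/

set_option autoImplicit false

open CategoryTheory AlgebraicGeometry

universe u v w w' w'' z

namespace Pool.Agent.Results.MP_386e47_ag.CanonicalPowers

open Pool.Agent.Y101.Aq Pool.Agent.H914 VarClass Obj Pool.Agent.W492.BB Pool.Agent.TH133
  Pool.Agent.Y712.AJ

/-- **The injectivity of the `p`-adic Abel–Jacobi maps is equivalent to their injectivity on the powers
of the canonical classes of the rational varieties**; the same for one variety and the canonical classes
of its projective bundles, and for the inclusions between the kernels for two primes. -/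
theorem result {k : Type u} [Field k] {𝒱 : VarClass k} {C : TheoryData.{u, v, 0} 𝒱 ℚ}
    [IsChowProj C] {ι : Type z} {K : ι → Type w} [∀ p, Field (K p)]
    {H : ∀ p, WeilTheoryData.{u, v, w} C (K p)} [∀ p, IsWeilProj (H p)]
    {T : ι → AJData.{u, v, w'} C} (hT : ∀ p, IsAJ (H p) (T p))
    {D : BundleData.{u, v, w''} C} (hD : IsBundleTheory D) {can : ∀ X : 𝒱.Obj, C.A X}
    (hcan : IsCanonical D can) {R : 𝒱.Obj → Prop} (hR : IsRationalClass D R) :
    (∀ p, GlobalReduction D can R (H p) (T p)) ∧
      (∀ p (X : 𝒱.Obj), LocalReduction D can (H p) (T p) X) ∧
      ∀ p q, KerLe (H p) (T p) (H q) (T q) ↔ CanKerLe can R (H p) (T p) (H q) (T q) :=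
  ⟨fun p => aj_global hD (hT p) hcan hR, fun p X => aj_local hD (hT p) hcan X,
    fun p q => aj_compare hD (hT p) (hT q) hcan hR⟩

end Pool.Agent.Results.MP_386e47_ag.CanonicalPowers
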